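import Pool.Agent.Landau.ToSol
import Pool.Agent.LandauG.WToSol

/-!
# MP_313fff_an: the Liouville property under finite energy at one single time

All hypotheses are those of the question (frozen statement `S04259`), with one more: the energy
`∫ |v|² f(t₀, v) dv` is finite at ONE time `t₀ ≤ 0`.
-/

set_option autoImplicit false

namespace Pool.Agent.Results.MP_313fff_an.FiniteEnergy

open Pool.Agent.Landau

/-- Every smooth ancient solution `0 ≤ f ≤ 1` of the space-homogeneous Landau-Coulomb equation,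
with `∫ f/⟨v⟩` finite at each time and `∫ |v|² f` finite at one time, is a stationary
Maxwellian. -/
theorem result :
  ∀ f : ℝ → EuclideanSpace ℝ (Fin 3) → ℝ,
    ContDiffOn ℝ (⊤ : ℕ∞) (fun p : ℝ × EuclideanSpace ℝ (Fin 3) => f p.1 p.2)
      (Set.Iic (0:ℝ) ×ˢ Set.univ) →
    (∀ t ≤ (0:ℝ), ∀ v, 0 ≤ f t v ∧ f t v ≤ 1) →
    (∀ t ≤ (0:ℝ), MeasureTheory.Integrable (fun v => f t v / Real.sqrt (1 + ‖v‖ ^ 2))) →
    (∃ t₀ ≤ (0:ℝ), MeasureTheory.Integrable (fun v => ‖v‖ ^ 2 * f t₀ v)) →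
    (∀ t < (0:ℝ), ∀ v, deriv (fun s => f s v) t =
       (∑ i : Fin 3, ∑ j : Fin 3,
         (∫ w, (1 / (8 * Real.pi)) *
             ((if i = j then (1:ℝ) else 0) / ‖v - w‖
               - (v - w) i * (v - w) j / ‖v - w‖ ^ 3) * f t w) *
         fderiv ℝ (fun x => fderiv ℝ (f t) x (EuclideanSpace.single j 1)) v
           (EuclideanSpace.single i 1))
       + f t v ^ 2) →
    ∃ ρ : ℝ, ∃ T : ℝ, ∃ u : EuclideanSpace ℝ (Fin 3), 0 ≤ ρ ∧ 0 < T ∧
      ∀ t ≤ (0:ℝ), ∀ v, f t v = ρ * Real.exp (-(‖v - u‖ ^ 2) / (2 * T)) := by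
  intro f hs h01 hi ⟨t₀, ht₀, hen⟩ hpde
  have hW : SolW f := to_solW f hs h01 hi hpde
  have hf : Sol f := sol_of_solW f hW t₀ ht₀ hen
  have hm1 : (-1 : ℝ) < 0 := by norm_num
  rcases (hf.cls (-1) hm1).mass_nonneg.eq_or_lt with hM | hM
  · refine ⟨0, 1, 0, le_rfl, one_pos, at_zero f hs _ fun t ht v => ?_⟩
    have h1 : mass (f t) = 0 := by
      rw [(cons_global f hf (-1) t hm1 ht).1, ← hM]
    rw [zero_of_mass (f t) (hf.cls t ht) h1 v, zero_mul]
  · obtain ⟨c, μ, ℓ, hc, hμ, h⟩ := ancient_gauss f hf hM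
    obtain ⟨ρ, T, u, hρ, hT, hG⟩ := gauss_form c μ ℓ hc hμ
    refine ⟨ρ, T, u, hρ, hT, at_zero f hs _ fun t ht v => ?_⟩
    rw [h t ht v, hG v]

end Pool.Agent.Results.MP_313fff_an.FiniteEnergy
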