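import Pool.Agent.LandauR.Retired.FiniteEnergyResult
import Pool.Agent.LandauR.RSolOf
import Pool.Agent.LandauR.RPos
import Pool.Agent.LandauR.RInt
import Pool.Agent.LandauR.REnerB

/-!
# MP_313fff_an: the radial case of Q1 with no finiteness assumption

All hypotheses are those of the question (frozen statement `S04259`), with one more: `f t` is a
radial function of `v` for each `t ≤ 0`.  No mass, energy or entropy bound is assumed.
-/

set_option autoImplicit false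

namespace Pool.Agent.Results.MP_313fff_an.Radial

open Pool.Agent.Landau Pool.Agent.LandauR

/-- Every smooth radially symmetric ancient solution `0 ≤ f ≤ 1` of the space-homogeneous
Landau-Coulomb equation with `∫ f/⟨v⟩` finite at each time is a stationary Maxwellian. -/
theorem result :
  ∀ f : ℝ → EuclideanSpace ℝ (Fin 3) → ℝ,
    ContDiffOn ℝ (⊤ : ℕ∞) (fun p : ℝ × EuclideanSpace ℝ (Fin 3) => f p.1 p.2)
      (Set.Iic (0:ℝ) ×ˢ Set.univ) →
    (∀ t ≤ (0:ℝ), ∀ v, 0 ≤ f t v ∧ f t v ≤ 1) →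
    (∀ t ≤ (0:ℝ), MeasureTheory.Integrable (fun v => f t v / Real.sqrt (1 + ‖v‖ ^ 2))) →
    (∀ t ≤ (0:ℝ), ∀ v w : EuclideanSpace ℝ (Fin 3), ‖v‖ = ‖w‖ → f t v = f t w) →
    (∀ t < (0:ℝ), ∀ v, deriv (fun s => f s v) t =
       (∑ i : Fin 3, ∑ j : Fin 3,
         (∫ w, (1 / (8 * Real.pi)) *
             ((if i = j then (1:ℝ) else 0) / ‖v - w‖
               - (v - w) i * (v - w) j / ‖v - w‖ ^ 3) * f t w) *
         fderiv ℝ (fun x => fderiv ℝ (f t) x (EuclideanSpace.single j 1)) v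
           (EuclideanSpace.single i 1))
       + f t v ^ 2) →
    ∃ ρ : ℝ, ∃ T : ℝ, ∃ u : EuclideanSpace ℝ (Fin 3), 0 ≤ ρ ∧ 0 < T ∧
      ∀ t ≤ (0:ℝ), ∀ v, f t v = ρ * Real.exp (-(‖v - u‖ ^ 2) / (2 * T)) := by
  intro f hs h01 hi hrad hpde
  have hW : SolW f := to_solW f hs h01 hi hpde
  have hen : ∃ t₀ ≤ (0 : ℝ), MeasureTheory.Integrable
      (fun v : EuclideanSpace ℝ (Fin 3) => ‖v‖ ^ 2 * f t₀ v) := by
    by_cases hz : ∃ t ≤ (0 : ℝ), ∃ v, f t v ≠ 0
    · have hR : ∀ t ≤ (0 : ℝ), Rad (f t) := hrad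
      have hS := rsol_of f hW hR (pos_all f hW hz)
      obtain ⟨t₀, ht₀, h⟩ := radial_energy _ hS
      exact ⟨t₀, ht₀.le, energy_of_prof (f t₀) (hR t₀ ht₀.le) h⟩
    · push Not at hz
      refine ⟨0, le_rfl, ?_⟩
      have h0 : (fun v : EuclideanSpace ℝ (Fin 3) => ‖v‖ ^ 2 * f 0 v) = fun _ => 0 := by
        funext v
        rw [hz 0 le_rfl v, mul_zero]
      rw [h0]
      exact MeasureTheory.integrable_zero _ _ _
  exact FiniteEnergy.result f hs h01 hi hen hpde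

end Pool.Agent.Results.MP_313fff_an.Radial
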